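import Pool.Agent.Helper66.TC.Bound

/-!
# A Ridout type theorem for numbers with a multiplicative transcendence measure

`Near`, `cell_core`: as in `Helper66/ER/Window.lean`, with `E n` instead of `exp n`.
-/

set_option autoImplicit false

namespace Pool.Agent.Helper66.TC

open Pool.Agent.Helper46.TC Polynomial Filter

/-- `x` is within `(u / q) ρ` of `(m / q) u` for a nonzero integer `m`, an integer `1 ≤ q ≤ Y`
and `u = ∏ p^(k p)` with `|k p| ≤ K` for `p ∈ S`. -/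
def Near (S : Finset ℕ) (K Y ρ x : ℝ) : Prop :=
  ∃ (k : ℕ → ℤ) (q m : ℤ), (∀ p ∈ S, |(k p : ℝ)| ≤ K) ∧ 1 ≤ q ∧ (q : ℝ) ≤ Y ∧ m ≠ 0 ∧
    |x - (m / q : ℝ) * ∏ p ∈ S, (p : ℝ) ^ (k p)| ≤
      (1 / q : ℝ) * (∏ p ∈ S, (p : ℝ) ^ (k p)) * ρ

theorem Near.mono {S : Finset ℕ} {K K' Y Y' ρ ρ' x : ℝ} (h : Near S K Y ρ x) (hK : K ≤ K')
    (hY : Y ≤ Y') (hρ : ρ ≤ ρ') : Near S K' Y' ρ' x := by
  obtain ⟨k, q, m, h1, h2, h3, h4, h5⟩ := h
  refine ⟨k, q, m, fun p hp => (h1 p hp).trans hK, h2, h3.trans hY, h4, h5.trans ?_⟩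
  apply mul_le_mul_of_nonneg_left hρ
  have hq : (0 : ℝ) < q := by exact_mod_cast (by omega : (0 : ℤ) < q)
  have : 0 ≤ ∏ p ∈ S, (p : ℝ) ^ (k p) := Finset.prod_nonneg (fun p _ => by positivity)
  positivity

theorem prod_zpow_eq_exp {S : Finset ℕ} (hS : ∀ p ∈ S, 2 ≤ p) (k : ℕ → ℤ) :
    ∏ p ∈ S, (p : ℝ) ^ (k p) = Real.exp (∑ p ∈ S, (k p : ℝ) * Real.log p) := by
  rw [Real.exp_sum]
  apply Finset.prod_congr rfl
  intro p hp
  have hp0 : (0 : ℝ) < p := by
    have := hS p hp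
    exact_mod_cast (by omega : 0 < p)
  rw [← Real.rpow_intCast, Real.rpow_def_of_pos hp0, mul_comm]

theorem sum_log_nonneg {S : Finset ℕ} (hS : ∀ p ∈ S, 2 ≤ p) : 0 ≤ ∑ p ∈ S, Real.log p := by
  apply Finset.sum_nonneg
  intro p hp
  apply Real.log_nonneg
  exact_mod_cast (by have := hS p hp; omega : 1 ≤ p)

theorem sum_mul_log_le {S : Finset ℕ} (hS : ∀ p ∈ S, 2 ≤ p) (f : ℕ → ℝ) (K : ℝ)
    (hf : ∀ p ∈ S, f p ≤ K) : ∑ p ∈ S, f p * Real.log p ≤ K * ∑ p ∈ S, Real.log p := by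
  rw [Finset.mul_sum]
  apply Finset.sum_le_sum
  intro p hp
  apply mul_le_mul_of_nonneg_right (hf p hp)
  apply Real.log_nonneg
  exact_mod_cast (by have := hS p hp; omega : 1 ≤ p)

/-- The contradiction for `d + 1` integers whose exponents are in the same cell. -/
theorem cell_core {S : Finset ℕ} (hS : ∀ p ∈ S, 2 ≤ p) {d : ℕ} {N : ℕ} {A ε δ ω ξ : ℝ}
    (hN : Real.exp (-(ε / 2 * N)) ≤ 1 / 2) (hε : 0 < ε) (hδ : 0 < δ)
    (hdδ : (d + 1) * δ ≤ ε / 4) (hω : ω * ∑ p ∈ S, Real.log p ≤ ε / 4)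
    (hξ : |ξ| ≤ Real.exp N)
    (E : ℕ → ℝ) (hE : ∀ n, 0 < E n) (n : Fin (d + 1) → ℕ) (k : Fin (d + 1) → ℕ → ℤ) (q m : Fin (d + 1) → ℤ)
    (hk : ∀ i, ∀ p ∈ S, |(k i p : ℝ)| ≤ A * N) (hcell : ∀ i j, ∀ p ∈ S,
      (k i p : ℝ) - k j p ≤ ω * N) (hq : ∀ i, 1 ≤ q i) (hqY : ∀ i, (q i : ℝ) ≤ Real.exp (δ * N))
    (hm : ∀ i, m i ≠ 0)
    (hnear : ∀ i, |ξ * E (n i) - (m i / q i : ℝ) * ∏ p ∈ S, (p : ℝ) ^ (k i p)| ≤
      (1 / q i : ℝ) * (∏ p ∈ S, (p : ℝ) ^ (k i p)) * Real.exp (-(ε * N))) :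
    ∃ ξ' : ℝ, ∃ b : Fin (d + 1) → ℤ,
      |ξ'| ≤ Real.exp ((2 + ε + A * ∑ p ∈ S, Real.log p) * N) ∧
      1 / 2 ≤ |ξ'| * E (n 0) ∧
      ∀ i, |ξ' * E (n i) - b i| ≤ Real.exp (-(ε / 2 * N)) := by
  classical
  set L : ℝ := ∑ p ∈ S, Real.log p with hL
  have hL0 : 0 ≤ L := sum_log_nonneg hS
  have hN0 : (0 : ℝ) ≤ N := by positivity
  -- the smallest exponents
  set kmin : ℕ → ℤ := fun p => Finset.univ.inf' ⟨0, Finset.mem_univ _⟩ (fun i => k i p) with hkmin
  have hkmin_le : ∀ i p, kmin p ≤ k i p := fun i p =>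
    Finset.inf'_le (fun i => k i p) (Finset.mem_univ i)
  have hkmin_ex : ∀ p, ∃ i, kmin p = k i p := by
    intro p
    obtain ⟨i, _, hi⟩ := Finset.exists_mem_eq_inf' (s := (Finset.univ : Finset (Fin (d + 1))))
      ⟨0, Finset.mem_univ _⟩ (fun i => k i p)
    exact ⟨i, hi⟩
  -- the multipliers
  set w : Fin (d + 1) → ℤ := fun i => ∏ p ∈ S, (p : ℤ) ^ ((k i p - kmin p).toNat) with hw
  set D : ℝ := ∏ p ∈ S, (p : ℝ) ^ (-kmin p) with hD
  have hpos : ∀ (f : ℕ → ℤ), 0 < ∏ p ∈ S, (p : ℝ) ^ (f p) := by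
    intro f
    rw [prod_zpow_eq_exp hS]
    exact Real.exp_pos _
  have hwD : ∀ i, (w i : ℝ) = D * ∏ p ∈ S, (p : ℝ) ^ (k i p) := by
    intro i
    rw [hD, ← Finset.prod_mul_distrib]
    simp only [hw]
    push_cast
    apply Finset.prod_congr rfl
    intro p hp
    have hp0 : (p : ℝ) ≠ 0 := by
      have := hS p hp
      exact_mod_cast (by omega : p ≠ 0)
    rw [← zpow_add₀ hp0, ← zpow_natCast, Int.toNat_of_nonneg (by have := hkmin_le i p; omega)]
    congr 1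
    ring
  have hw1 : ∀ i, 1 ≤ w i := by
    intro i
    have h1 : 0 < w i := by
      simp only [hw]
      apply Finset.prod_pos
      intro p hp
      have := hS p hp
      have : (0 : ℤ) < p := by exact_mod_cast (by omega : 0 < p)
      positivity
    omega
  have hwle : ∀ i, (w i : ℝ) ≤ Real.exp (ε / 4 * N) := by
    intro i
    rw [hwD, hD, ← Finset.prod_mul_distrib]
    have e1 : ∏ p ∈ S, (p : ℝ) ^ (-kmin p) * (p : ℝ) ^ (k i p) =
        ∏ p ∈ S, (p : ℝ) ^ (k i p - kmin p) := by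
      apply Finset.prod_congr rfl
      intro p hp
      have hp0 : (p : ℝ) ≠ 0 := by
        have := hS p hp
        exact_mod_cast (by omega : p ≠ 0)
      rw [← zpow_add₀ hp0]
      congr 1
      ring
    rw [e1, prod_zpow_eq_exp hS (fun p => k i p - kmin p)]
    apply Real.exp_le_exp.mpr
    have h2 := sum_mul_log_le hS (fun p => ((k i p - kmin p : ℤ) : ℝ)) (ω * N) (by
      intro p hp
      obtain ⟨j, hj⟩ := hkmin_ex p
      rw [hj]
      push_cast
      exact hcell i j p hp)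
    refine h2.trans ?_
    calc ω * N * L = (ω * L) * N := by ring
      _ ≤ ε / 4 * N := mul_le_mul_of_nonneg_right hω hN0
  -- the product of the denominators
  set Q : ℤ := ∏ i, q i with hQ
  set Qi : Fin (d + 1) → ℤ := fun i => ∏ j ∈ Finset.univ.erase i, q j with hQi
  have hQQi : ∀ i, Q = q i * Qi i := by
    intro i
    rw [hQ, hQi, Finset.mul_prod_erase _ _ (Finset.mem_univ i)]
  have hQi1 : ∀ i, 1 ≤ Qi i := by
    intro i
    have : 0 < Qi i := Finset.prod_pos (fun j _ => by have := hq j; omega)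
    omega
  have hQ1 : 1 ≤ Q := by
    have : 0 < Q := Finset.prod_pos (fun j _ => by have := hq j; omega)
    omega
  have hQle : (Q : ℝ) ≤ Real.exp (ε / 4 * N) := by
    rw [hQ]
    push_cast
    calc ∏ i, (q i : ℝ) ≤ ∏ _i : Fin (d + 1), Real.exp (δ * N) := by
          apply Finset.prod_le_prod
          · intro i _
            have := hq i
            exact_mod_cast (by omega : (0 : ℤ) ≤ q i)
          · intro i _
            exact hqY i
      _ = Real.exp (((d + 1) * δ) * N) := by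
          rw [Finset.prod_const, Finset.card_univ, Fintype.card_fin, ← Real.exp_nat_mul]
          congr 1
          push_cast
          ring
      _ ≤ _ := by
          apply Real.exp_le_exp.mpr
          exact mul_le_mul_of_nonneg_right hdδ hN0
  have hQile : ∀ i, (Qi i : ℝ) ≤ Real.exp (ε / 4 * N) := by
    intro i
    refine le_trans ?_ hQle
    have h1 : Qi i ≤ Q := by
      rw [hQQi i]
      have := hQi1 i
      have := hq i
      nlinarith
    exact_mod_cast h1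
  have hD0 : 0 < D := hpos _
  -- the error
  have herr : ∀ i, |(Q : ℝ) * D * ξ * E (n i) - ((Qi i * w i * m i : ℤ) : ℝ)| ≤
      Real.exp (-(ε / 2 * N)) := by
    intro i
    set u : ℝ := ∏ p ∈ S, (p : ℝ) ^ (k i p) with hu
    have hu0 : 0 < u := hpos _
    have hqi : (0 : ℝ) < q i := by
      have := hq i
      exact_mod_cast (by omega : (0 : ℤ) < q i)
    have e1 : (Q : ℝ) * D * ξ * E (n i) - ((Qi i * w i * m i : ℤ) : ℝ) =
        ((Qi i : ℝ) * q i * D) * (ξ * E (n i) - (m i / q i : ℝ) * u) := by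
      push_cast
      rw [hwD i, ← hu, hQQi i]
      push_cast
      field_simp
    rw [e1, abs_mul]
    have hQi0 : (0 : ℝ) < Qi i := by
      have := hQi1 i
      exact_mod_cast (by omega : (0 : ℤ) < Qi i)
    have hc0 : 0 < (Qi i : ℝ) * q i * D := by positivity
    rw [abs_of_pos hc0]
    calc (Qi i : ℝ) * q i * D * |ξ * E (n i) - (m i / q i : ℝ) * u|
        ≤ (Qi i : ℝ) * q i * D * ((1 / q i : ℝ) * u * Real.exp (-(ε * N))) :=
          mul_le_mul_of_nonneg_left (hnear i) hc0.le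
      _ = (Qi i : ℝ) * (w i) * Real.exp (-(ε * N)) := by
          rw [hwD i, ← hu]
          field_simp
      _ ≤ Real.exp (ε / 4 * N) * Real.exp (ε / 4 * N) * Real.exp (-(ε * N)) := by
          apply mul_le_mul_of_nonneg_right _ (Real.exp_pos _).le
          apply mul_le_mul (hQile i) (hwle i) _ (Real.exp_pos _).le
          have := hw1 i
          exact_mod_cast (by omega : (0 : ℤ) ≤ w i)
      _ = Real.exp (-(ε / 2 * N)) := by
          rw [← Real.exp_add, ← Real.exp_add]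
          congr 1
          ring
  refine ⟨(Q : ℝ) * D * ξ, fun i => Qi i * w i * m i, ?_, ?_, herr⟩
  · rw [abs_mul, abs_mul, abs_of_pos hD0]
    have hQ0 : (0 : ℝ) ≤ Q := by exact_mod_cast (by omega : (0 : ℤ) ≤ Q)
    rw [abs_of_nonneg hQ0]
    have hDle : D ≤ Real.exp (A * L * N) := by
      rw [hD, prod_zpow_eq_exp hS (fun p => -kmin p)]
      apply Real.exp_le_exp.mpr
      have h2 := sum_mul_log_le hS (fun p => ((-kmin p : ℤ) : ℝ)) (A * N) (by
        intro p hp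
        obtain ⟨j, hj⟩ := hkmin_ex p
        rw [hj]
        push_cast
        have := neg_abs_le (k j p : ℝ)
        have := hk j p hp
        linarith)
      refine h2.trans (le_of_eq ?_)
      rw [← hL]
      ring
    calc (Q : ℝ) * D * |ξ| ≤ Real.exp (ε / 4 * N) * Real.exp (A * L * N) * Real.exp N := by
          apply mul_le_mul (mul_le_mul hQle hDle hD0.le (Real.exp_pos _).le) hξ (abs_nonneg _)
          positivity
      _ = Real.exp (ε / 4 * N + A * L * N + N) := by rw [Real.exp_add, Real.exp_add]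
      _ ≤ _ := by
          apply Real.exp_le_exp.mpr
          nlinarith
  · have h0 := herr 0
    have hb : (1 : ℝ) ≤ |((Qi 0 * w 0 * m 0 : ℤ) : ℝ)| := by
      have h1 : Qi 0 * w 0 * m 0 ≠ 0 := by
        apply mul_ne_zero (mul_ne_zero _ _) (hm 0)
        · have := hQi1 0; omega
        · have := hw1 0; omega
      exact_mod_cast Int.one_le_abs h1
    have h2 := abs_sub_abs_le_abs_sub (((Qi 0 * w 0 * m 0 : ℤ) : ℝ))
      ((Q : ℝ) * D * ξ * E (n 0))
    rw [abs_sub_comm] at h2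
    have h3 : |(Q : ℝ) * D * ξ * E (n 0)| = |(Q : ℝ) * D * ξ| * E (n 0) := by
      rw [abs_mul, abs_of_pos (hE (n 0))]
    rw [← h3]
    linarith

/-- The counting function of the exceptional integers for large `N`. -/
theorem count_bound {a : ℝ} (ha : 1 < a) (hM' : HasMult a) {S : Finset ℕ} (hS : ∀ p ∈ S, 2 ≤ p) (A ε : ℝ) (hA : 0 ≤ A) (hε : 0 < ε) :
    ∃ c δ C : ℝ, 0 < c ∧ c < 1 ∧ 0 < δ ∧ 0 < C ∧ ∀ᶠ N : ℕ in atTop, ∀ ξ : ℝ,
      |ξ| ≤ Real.exp N →
      ({n : ℕ | 1 ≤ n ∧ n ≤ N ∧ Near S (A * N) (Real.exp (δ * N)) (Real.exp (-(ε * N)))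
        (ξ * a ^ n)}.ncard : ℝ) ≤ C * (N : ℝ) ^ (1 - c) := by
  classical
  set L : ℝ := ∑ p ∈ S, Real.log p with hL
  have hL0 : 0 ≤ L := sum_log_nonneg hS
  obtain ⟨d, hev⟩ := window_bound ha hM' (2 + ε + A * L) (ε / 2) (by positivity)
    (by positivity)
  obtain ⟨γ, hγ⟩ : ∃ γ : ℝ, γ = (1 : ℝ) / 6 := ⟨_, rfl⟩
  have hγ0 : 0 < γ := by rw [hγ]; norm_num
  have hγ1 : γ < 1 := by rw [hγ]; norm_num
  rw [← hγ] at hev
  set δ : ℝ := ε / (4 * (d + 1)) with hδ
  have hδ0 : 0 < δ := by positivity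
  have hdδ : (d + 1) * δ ≤ ε / 4 := by
    rw [hδ]
    apply le_of_eq
    field_simp
  set ω : ℝ := ε / (4 * (L + 1)) with hω
  have hω0 : 0 < ω := by positivity
  have hωL : ω * L ≤ ε / 4 := by
    rw [hω, div_mul_eq_mul_div, div_le_div_iff₀ (by positivity) (by norm_num)]
    nlinarith
  set M : ℤ := ⌈A / ω⌉ + 1 with hM
  have hM0 : 0 ≤ M := by
    have : 0 ≤ ⌈A / ω⌉ := Int.ceil_nonneg (by positivity)
    omega
  -- the number of cells
  set cells : Finset (S → ℤ) := Fintype.piFinset (fun _ => Finset.Icc (-M) M) with hcells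
  set K : ℕ := cells.card with hK
  refine ⟨γ, δ, 3 * ((d + 1) * (K + 1)), hγ0, hγ1, hδ0, by positivity, ?_⟩
  have hcast : Tendsto (fun N : ℕ => (N : ℝ)) atTop atTop := tendsto_natCast_atTop_atTop
  have ev1 : ∀ᶠ N : ℕ in atTop, Real.log 2 / (ε / 2) < (N : ℝ) := hcast.eventually_gt_atTop _
  filter_upwards [hev, ev1, eventually_ge_atTop 1] with N hN h1 hN1
  intro ξ hξ
  have hN1' : (1 : ℝ) ≤ N := by exact_mod_cast hN1
  have hexp : Real.exp (-(ε / 2 * N)) ≤ 1 / 2 := by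
    rw [div_lt_iff₀ (by positivity)] at h1
    rw [Real.exp_neg, ← one_div]
    apply one_div_le_one_div_of_le (by norm_num)
    calc (2 : ℝ) = Real.exp (Real.log 2) := (Real.exp_log (by norm_num)).symm
      _ ≤ Real.exp (ε / 2 * N) := by
        apply Real.exp_le_exp.mpr
        linarith
  have hpow1 : (1 : ℝ) ≤ (N : ℝ) ^ γ := Real.one_le_rpow hN1' hγ0.le
  set g : ℕ := ⌊(N : ℝ) ^ γ⌋₊ with hg
  have hg1 : 1 ≤ g := by rw [hg, Nat.one_le_floor_iff]; exact hpow1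
  set T : Finset ℕ := (Finset.Icc 1 N).filter (fun n =>
    Near S (A * N) (Real.exp (δ * N)) (Real.exp (-(ε * N))) (ξ * a ^ n)) with hT
  have hset : {n : ℕ | 1 ≤ n ∧ n ≤ N ∧ Near S (A * N) (Real.exp (δ * N))
      (Real.exp (-(ε * N))) (ξ * a ^ n)} = (T : Set ℕ) := by
    ext n
    simp only [hT, Set.mem_ofPred_eq, Finset.coe_filter, Finset.mem_Icc]
    tauto
  rw [hset, Set.ncard_coe_finset]
  -- choose the data
  have hch : ∀ n : ℕ, ∃ (k : ℕ → ℤ) (q m : ℤ), n ∈ T → (∀ p ∈ S, |(k p : ℝ)| ≤ A * N) ∧ 1 ≤ q ∧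
      (q : ℝ) ≤ Real.exp (δ * N) ∧ m ≠ 0 ∧
      |ξ * a ^ n - (m / q : ℝ) * ∏ p ∈ S, (p : ℝ) ^ (k p)| ≤
        (1 / q : ℝ) * (∏ p ∈ S, (p : ℝ) ^ (k p)) * Real.exp (-(ε * N)) := by
    intro n
    by_cases hn : n ∈ T
    · obtain ⟨k, q, m, h⟩ := (Finset.mem_filter.mp hn).2
      exact ⟨k, q, m, fun _ => h⟩
    · exact ⟨0, 0, 0, fun h => absurd h hn⟩
  choose k q m hdata using hch
  set cell : ℕ → (S → ℤ) := fun n p => ⌊(k n p : ℝ) / (ω * N)⌋ with hcell
  have hcellmem : ∀ n ∈ T, cell n ∈ cells := by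
    intro n hn
    rw [hcells, Fintype.mem_piFinset]
    intro p
    have h2 := (hdata n hn).1 p p.2
    have hωN : 0 < ω * N := by positivity
    have h3 : |(k n p : ℝ) / (ω * N)| ≤ A / ω := by
      rw [abs_div, abs_of_pos hωN, div_le_div_iff₀ hωN hω0]
      calc |(k n p : ℝ)| * ω ≤ (A * N) * ω := mul_le_mul_of_nonneg_right h2 hω0.le
        _ = A * (ω * N) := by ring
    rw [abs_le] at h3
    rw [Finset.mem_Icc]
    have h4 : A / ω ≤ ⌈A / ω⌉ := Int.le_ceil _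
    constructor
    · apply Int.le_floor.mpr
      rw [hM]
      push_cast
      linarith [h3.1]
    · have h5 : (⌊(k n p : ℝ) / (ω * N)⌋ : ℝ) ≤ (⌈A / ω⌉ : ℝ) + 1 := by
        have := Int.floor_le ((k n p : ℝ) / (ω * N))
        linarith [h3.2]
      simp only [hcell]
      rw [hM]
      exact_mod_cast h5
  have hfib : ∀ v ∈ T.image (fun n => (n / g, cell n)),
      (T.filter (fun n => (n / g, cell n) = v)).card ≤ d := by
    intro v _
    by_contra hcon
    push Not at hcon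
    let e := Finset.orderEmbOfCardLe (T.filter (fun n => (n / g, cell n) = v)) (k := d + 1) hcon
    have hmem : ∀ i, e i ∈ T.filter (fun n => (n / g, cell n) = v) := fun i =>
      Finset.orderEmbOfCardLe_mem _ _ i
    have hmemT : ∀ i, e i ∈ T := fun i => (Finset.mem_filter.mp (hmem i)).1
    have hmemN : ∀ i, e i ≤ N := by
      intro i
      have h1 := hmemT i
      simp only [hT, Finset.mem_filter, Finset.mem_Icc] at h1
      exact h1.1.2
    have hdiv : ∀ i, e i / g = v.1 := fun i => by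
      have := (Finset.mem_filter.mp (hmem i)).2
      exact congrArg Prod.fst this
    have hcc : ∀ i, cell (e i) = v.2 := fun i => by
      have := (Finset.mem_filter.mp (hmem i)).2
      exact congrArg Prod.snd this
    obtain ⟨ξ', b, hb1, hb2, hb3⟩ := cell_core (S := S) hS (d := d) (N := N) (A := A) (ε := ε)
      (δ := δ) (ω := ω) (ξ := ξ) hexp hε hδ0 hdδ hωL hξ (fun n => a ^ n) (fun n => pow_pos (by linarith : 0 < a) n) (fun i => e i) (fun i => k (e i))
      (fun i => q (e i)) (fun i => m (e i))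
      (fun i => (hdata _ (hmemT i)).1) (by
        intro i j p hp
        have h2 : cell (e i) ⟨p, hp⟩ = cell (e j) ⟨p, hp⟩ := by rw [hcc i, hcc j]
        simp only [hcell] at h2
        have hωN : 0 < ω * N := by positivity
        have h3 := Int.lt_floor_add_one ((k (e i) p : ℝ) / (ω * N))
        have h4 := Int.floor_le ((k (e j) p : ℝ) / (ω * N))
        rw [h2] at h3
        have h5 : (k (e i) p : ℝ) / (ω * N) - (k (e j) p : ℝ) / (ω * N) ≤ 1 := by linarith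
        rw [← sub_div, div_le_one hωN] at h5
        exact h5)
      (fun i => (hdata _ (hmemT i)).2.1) (fun i => (hdata _ (hmemT i)).2.2.1)
      (fun i => (hdata _ (hmemT i)).2.2.2.1) (fun i => (hdata _ (hmemT i)).2.2.2.2)
    refine hN ξ' hb1 (fun i => e i) e.strictMono hmemN ?_ hb2 b hb3
    intro i
    have h1 := hdiv i
    have h2 := hdiv 0
    have h3 : e i < g * v.1 + g := by
      have := Nat.lt_mul_div_succ (e i) (show 0 < g by omega)
      rw [h1] at this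
      linarith
    have h4 : g * v.1 ≤ e 0 := by
      have := Nat.mul_div_le (e 0) g
      rwa [h2] at this
    change e i ≤ e 0 + g
    omega
  have h1 := Finset.card_le_mul_card_image (s := T) (f := fun n => (n / g, cell n)) d hfib
  have h2 : (T.image (fun n => (n / g, cell n))).card ≤ (N / g + 1) * K := by
    rw [← Finset.card_range (N / g + 1), hK, ← Finset.card_product]
    apply Finset.card_le_card
    intro v hv
    rw [Finset.mem_image] at hv
    obtain ⟨n, hn, rfl⟩ := hv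
    rw [Finset.mem_product]
    refine ⟨?_, hcellmem n hn⟩
    simp only [hT, Finset.mem_filter, Finset.mem_Icc] at hn
    rw [Finset.mem_range]
    exact Nat.lt_succ_of_le (Nat.div_le_div_right hn.1.2)
  have h3 : (T.card : ℝ) ≤ (d * K) * ((N : ℝ) / g + 1) := by
    have h4 : T.card ≤ d * ((N / g + 1) * K) := h1.trans (Nat.mul_le_mul_left _ h2)
    calc (T.card : ℝ) ≤ ((d * ((N / g + 1) * K) : ℕ) : ℝ) := by exact_mod_cast h4
      _ = (d * K) * (((N / g : ℕ) : ℝ) + 1) := by push_cast; ring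
      _ ≤ (d * K) * ((N : ℝ) / g + 1) := by
        apply mul_le_mul_of_nonneg_left _ (by positivity)
        have := @Nat.cast_div_le ℝ _ _ _ N g
        linarith
  have hN0 : (0 : ℝ) < N := by linarith
  have h4 : (N : ℝ) ^ (1 - γ) = N / (N : ℝ) ^ γ := by
    rw [Real.rpow_sub hN0, Real.rpow_one]
  have h5 : (N : ℝ) ^ γ / 2 ≤ g := by
    have := Nat.lt_floor_add_one ((N : ℝ) ^ γ)
    rw [← hg] at this
    have hg1' : (1 : ℝ) ≤ g := by exact_mod_cast hg1
    linarith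
  have h6 : (N : ℝ) / g ≤ 2 * (N : ℝ) ^ (1 - γ) := by
    rw [h4, div_le_iff₀ (by linarith)]
    calc (N : ℝ) = 2 * (N / (N : ℝ) ^ γ) * ((N : ℝ) ^ γ / 2) := by field_simp
      _ ≤ 2 * (N / (N : ℝ) ^ γ) * g := mul_le_mul_of_nonneg_left h5 (by positivity)
  have h7 : 1 ≤ (N : ℝ) ^ (1 - γ) := Real.one_le_rpow hN1' (by linarith)
  have hd0 : (0 : ℝ) ≤ d := by positivity
  have hK0 : (0 : ℝ) ≤ K := by positivity
  calc (T.card : ℝ) ≤ (d * K) * ((N : ℝ) / g + 1) := h3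
    _ ≤ (d * K) * (3 * (N : ℝ) ^ (1 - γ)) :=
        mul_le_mul_of_nonneg_left (by linarith) (by positivity)
    _ ≤ ((d + 1) * (K + 1)) * (3 * (N : ℝ) ^ (1 - γ)) := by
        apply mul_le_mul_of_nonneg_right _ (by positivity)
        nlinarith
    _ = 3 * ((d + 1) * (K + 1)) * (N : ℝ) ^ (1 - γ) := by ring

/-- The trivial bound. -/
theorem ncard_le (N : ℕ) (q : ℕ → Prop) : {n : ℕ | 1 ≤ n ∧ n ≤ N ∧ q n}.ncard ≤ N := by
  have h1 : {n : ℕ | 1 ≤ n ∧ n ≤ N ∧ q n} ⊆ (Finset.Icc 1 N : Set ℕ) := by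
    intro n hn
    simp only [Finset.coe_Icc, Set.mem_Icc]
    exact ⟨hn.1, hn.2.1⟩
  have h2 := Set.ncard_le_ncard h1 (Finset.finite_toSet _)
  rw [Set.ncard_coe_finset] at h2
  simpa using h2

theorem finite_set (N : ℕ) (q : ℕ → Prop) : {n : ℕ | 1 ≤ n ∧ n ≤ N ∧ q n}.Finite := by
  apply (Finset.finite_toSet (Finset.Icc 1 N)).subset
  intro n hn
  simp only [Finset.coe_Icc, Set.mem_Icc]
  exact ⟨hn.1, hn.2.1⟩

/-- The uniform bound. -/
theorem part_one {a : ℝ} (ha : 1 < a) (hM' : HasMult a) {S : Finset ℕ} (hS : ∀ p ∈ S, 2 ≤ p) (A ε : ℝ) (hA : 0 ≤ A) (hε : 0 < ε) :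
    ∃ c δ C : ℝ, 0 < c ∧ c < 1 ∧ 0 < δ ∧ 0 < C ∧ ∀ N : ℕ, 1 ≤ N → ∀ ξ : ℝ,
      |ξ| ≤ Real.exp N →
      ({n : ℕ | 1 ≤ n ∧ n ≤ N ∧ Near S (A * N) (Real.exp (δ * N)) (Real.exp (-(ε * N)))
        (ξ * a ^ n)}.ncard : ℝ) ≤ C * (N : ℝ) ^ (1 - c) := by
  obtain ⟨c, δ, C, hc0, hc1, hδ, hC, hev⟩ := count_bound ha hM' hS A ε hA hε
  obtain ⟨N0, hN0⟩ := eventually_atTop.mp hev
  refine ⟨c, δ, max C (N0 : ℝ), hc0, hc1, hδ, lt_of_lt_of_le hC (le_max_left _ _), ?_⟩
  intro N hN ξ hξ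
  have hN1 : (1 : ℝ) ≤ N := by exact_mod_cast hN
  have h1 : 1 ≤ (N : ℝ) ^ (1 - c) := Real.one_le_rpow hN1 (by linarith)
  by_cases h : N0 ≤ N
  · refine (hN0 N h ξ hξ).trans ?_
    exact mul_le_mul_of_nonneg_right (le_max_left _ _) (by linarith)
  · push Not at h
    have h2 : ({n : ℕ | 1 ≤ n ∧ n ≤ N ∧ Near S (A * N) (Real.exp (δ * N))
        (Real.exp (-(ε * N))) (ξ * a ^ n)}.ncard : ℝ) ≤ N := by
      exact_mod_cast ncard_le N _
    have h3 : (N : ℝ) ≤ N0 := by exact_mod_cast h.le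
    calc _ ≤ (N : ℝ) := h2
      _ ≤ max C (N0 : ℝ) * 1 := by rw [mul_one]; exact h3.trans (le_max_right _ _)
      _ ≤ max C (N0 : ℝ) * (N : ℝ) ^ (1 - c) :=
        mul_le_mul_of_nonneg_left h1 (hC.le.trans (le_max_left _ _))

/-- the Ridout type theorem -/
theorem ridout {a : ℝ} (ha : 1 < a) (hM' : HasMult a) (S : Finset ℕ) (hS : ∀ p ∈ S, 2 ≤ p) (A ε : ℝ) (hε : 0 < ε) :
    ∃ c δ C : ℝ, 0 < c ∧ 0 < δ ∧ ∀ ξ : ℝ, ξ ≠ 0 → ∀ N : ℕ, 1 ≤ N →
      ({n : ℕ | 1 ≤ n ∧ n ≤ N ∧ ∃ (k : ℕ → ℤ) (q m : ℤ), (∀ p ∈ S, |(k p : ℝ)| ≤ A * n) ∧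
        1 ≤ q ∧ (q : ℝ) ≤ Real.exp (δ * n) ∧ m ≠ 0 ∧
        |ξ * a ^ n - (m / q : ℝ) * ∏ p ∈ S, (p : ℝ) ^ (k p)| ≤
          (1 / q : ℝ) * (∏ p ∈ S, (p : ℝ) ^ (k p)) * Real.exp (-(ε * n))}.ncard : ℝ) ≤
        C * ((N : ℝ) ^ (1 - c) + |Real.log (|ξ|)|) := by
  obtain ⟨c, δ, C, hc0, hc1, hδ, hC, hmain⟩ := part_one ha hM' hS (max A 0) (ε / 2) (le_max_right _ _)
    (by positivity)
  set q : ℝ := (2 : ℝ) ^ (-(1 - c)) with hq
  have hq1 : q < 1 := by
    rw [hq]
    exact Real.rpow_lt_one_of_one_lt_of_neg (by norm_num) (by linarith)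
  have hq0 : 0 < q := by positivity
  set C' : ℝ := C / (1 - q) with hC'
  have hC'pos : 0 < C' := div_pos hC (by linarith)
  have hC'eq : C' * q + C = C' := by
    rw [hC']
    have : 1 - q ≠ 0 := by linarith
    field_simp
    ring
  refine ⟨c, δ, max C' 1, hc0, hδ, ?_⟩
  intro ξ hξ
  have hξ0 : 0 < |ξ| := abs_pos.mpr hξ
  set lam : ℝ := |Real.log (|ξ|)| with hlam
  have hlam0 : 0 ≤ lam := abs_nonneg _
  have hrange : ∀ M : ℕ, lam ≤ M → |ξ| ≤ Real.exp M := by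
    intro M hM
    rw [← Real.log_le_iff_le_exp hξ0]
    have := le_abs_self (Real.log (|ξ|))
    linarith
  have key : ∀ N : ℕ, ({n : ℕ | 1 ≤ n ∧ n ≤ N ∧
      Near S (A * n) (Real.exp (δ * n)) (Real.exp (-(ε * n))) (ξ * a ^ n)}.ncard : ℝ) ≤
      C' * (N : ℝ) ^ (1 - c) + lam := by
    intro N
    induction N using Nat.strong_induction_on with
    | _ N ih =>
      by_cases hN : (N : ℝ) < lam
      · have h2 : ({n : ℕ | 1 ≤ n ∧ n ≤ N ∧ Near S (A * n) (Real.exp (δ * n))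
            (Real.exp (-(ε * n))) (ξ * a ^ n)}.ncard : ℝ) ≤ N := by
          exact_mod_cast ncard_le N _
        have h3 : 0 ≤ C' * (N : ℝ) ^ (1 - c) := by positivity
        linarith
      push Not at hN
      rcases Nat.eq_zero_or_pos N with h0 | hpos
      · subst h0
        have h2 := ncard_le 0 (fun n => Near S (A * n) (Real.exp (δ * n))
            (Real.exp (-(ε * n))) (ξ * a ^ n))
        have h3 : {n : ℕ | 1 ≤ n ∧ n ≤ 0 ∧ Near S (A * n) (Real.exp (δ * n))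
            (Real.exp (-(ε * n))) (ξ * a ^ n)}.ncard = 0 := by omega
        rw [h3]
        simp only [Nat.cast_zero]
        positivity
      · have hsub : {n : ℕ | 1 ≤ n ∧ n ≤ N ∧ Near S (A * n) (Real.exp (δ * n))
            (Real.exp (-(ε * n))) (ξ * a ^ n)} ⊆
            {n : ℕ | 1 ≤ n ∧ n ≤ N / 2 ∧ Near S (A * n) (Real.exp (δ * n))
            (Real.exp (-(ε * n))) (ξ * a ^ n)} ∪
            {n : ℕ | 1 ≤ n ∧ n ≤ N ∧ Near S (max A 0 * N) (Real.exp (δ * N))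
            (Real.exp (-(ε / 2 * N))) (ξ * a ^ n)} := by
          rintro n ⟨h1, h2, h3⟩
          by_cases h4 : n ≤ N / 2
          · exact Or.inl ⟨h1, h4, h3⟩
          · have h5 : N ≤ 2 * n := by omega
            have h6 : (N : ℝ) ≤ 2 * n := by exact_mod_cast h5
            have h7 : (n : ℝ) ≤ N := by exact_mod_cast h2
            refine Or.inr ⟨h1, h2, h3.mono ?_ ?_ ?_⟩
            · calc A * n ≤ max A 0 * n :=
                    mul_le_mul_of_nonneg_right (le_max_left _ _) (by positivity)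
                _ ≤ max A 0 * N := mul_le_mul_of_nonneg_left h7 (le_max_right _ _)
            · apply Real.exp_le_exp.mpr
              exact mul_le_mul_of_nonneg_left h7 hδ.le
            · apply Real.exp_le_exp.mpr
              nlinarith
        have h1 := Set.ncard_le_ncard hsub ((finite_set _ _).union (finite_set _ _))
        have h2 := h1.trans (Set.ncard_union_le _ _)
        have h3 := ih (N / 2) (Nat.div_lt_self hpos (by norm_num))
        have h4 := hmain N hpos ξ (hrange N hN)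
        have h5 : (((N / 2 : ℕ) : ℝ)) ^ (1 - c) ≤ q * (N : ℝ) ^ (1 - c) := by
          calc (((N / 2 : ℕ) : ℝ)) ^ (1 - c) ≤ ((N : ℝ) / 2) ^ (1 - c) := by
                apply Real.rpow_le_rpow (by positivity) _ (by linarith)
                have := @Nat.cast_div_le ℝ _ _ _ N 2
                simpa using this
            _ = q * (N : ℝ) ^ (1 - c) := by
                rw [hq, Real.div_rpow (by positivity) (by norm_num), Real.rpow_neg (by norm_num)]
                ring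
        have h6 : (({n : ℕ | 1 ≤ n ∧ n ≤ N ∧ Near S (A * n) (Real.exp (δ * n))
            (Real.exp (-(ε * n))) (ξ * a ^ n)}.ncard : ℕ) : ℝ) ≤
            (({n : ℕ | 1 ≤ n ∧ n ≤ N / 2 ∧ Near S (A * n) (Real.exp (δ * n))
            (Real.exp (-(ε * n))) (ξ * a ^ n)}.ncard : ℕ) : ℝ) +
            (({n : ℕ | 1 ≤ n ∧ n ≤ N ∧ Near S (max A 0 * N) (Real.exp (δ * N))
            (Real.exp (-(ε / 2 * N))) (ξ * a ^ n)}.ncard : ℕ) : ℝ) := by
          exact_mod_cast h2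
        calc _ ≤ _ := h6
          _ ≤ (C' * (((N / 2 : ℕ) : ℝ)) ^ (1 - c) + lam) + C * (N : ℝ) ^ (1 - c) :=
            add_le_add h3 h4
          _ ≤ (C' * (q * (N : ℝ) ^ (1 - c)) + lam) + C * (N : ℝ) ^ (1 - c) := by
              have := mul_le_mul_of_nonneg_left h5 hC'pos.le
              linarith
          _ = (C' * q + C) * (N : ℝ) ^ (1 - c) + lam := by ring
          _ = C' * (N : ℝ) ^ (1 - c) + lam := by rw [hC'eq]
  intro N _
  refine (key N).trans ?_
  rw [mul_add]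
  apply add_le_add
  · exact mul_le_mul_of_nonneg_right (le_max_left _ _) (by positivity)
  · exact le_mul_of_one_le_left hlam0 (le_max_right _ _)

end Pool.Agent.Helper66.TC
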