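import Pool.Agent.Helper66.TC.Win

/-!
# Windows of length `N^(1/6)`
-/

set_option autoImplicit false

namespace Pool.Agent.Helper66.TC

open Pool.Agent.Helper46.TC Polynomial Filter

lemma floor_pow_five {N : ℕ} (hN : 1 ≤ N) :
    ((⌊(N : ℝ) ^ ((1 : ℝ) / 6)⌋₊ : ℕ) : ℝ) ^ 5 ≤ (N : ℝ) ^ ((5 : ℝ) / 6) := by
  have hN1 : (1 : ℝ) ≤ N := by exact_mod_cast hN
  have h1 : ((⌊(N : ℝ) ^ ((1 : ℝ) / 6)⌋₊ : ℕ) : ℝ) ≤ (N : ℝ) ^ ((1 : ℝ) / 6) := Nat.floor_le (by positivity)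
  calc _ ≤ ((N : ℝ) ^ ((1 : ℝ) / 6)) ^ 5 := pow_le_pow_left₀ (by positivity) h1 5
    _ = (N : ℝ) ^ ((5 : ℝ) / 6) := by
      rw [← Real.rpow_natCast, ← Real.rpow_mul (by positivity)]
      norm_num

lemma log_growth {c : ℝ} (hc : 0 ≤ c) {N : ℕ} (hN : 1 ≤ N) :
    1 + Real.log (1 + c * N) ≤ (1 + 12 * (1 + c) ^ ((1 : ℝ) / 12)) * (N : ℝ) ^ ((1 : ℝ) / 12) := by
  have hN1 : (1 : ℝ) ≤ N := by exact_mod_cast hN
  have h1 : 1 ≤ (N : ℝ) ^ ((1 : ℝ) / 12) := Real.one_le_rpow hN1 (by norm_num)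
  have h2 : 1 + c * N ≤ (1 + c) * N := by nlinarith
  have h3 : 0 < 1 + c * N := by positivity
  have h4 := Real.log_le_rpow_div (x := 1 + c * N) h3.le (ε := (1 : ℝ) / 12) (by norm_num)
  have h5 : (1 + c * N) ^ ((1 : ℝ) / 12) ≤ (1 + c) ^ ((1 : ℝ) / 12) * (N : ℝ) ^ ((1 : ℝ) / 12) := by
    rw [← Real.mul_rpow (by positivity) (by positivity)]
    exact Real.rpow_le_rpow h3.le h2 (by norm_num)
  have h6 : (1 + c * N) ^ ((1 : ℝ) / 12) / ((1 : ℝ) / 12) = 12 * (1 + c * N) ^ ((1 : ℝ) / 12) := by ring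
  rw [h6] at h4
  nlinarith

/-- A window of length `N^(1/6)` contains at most `d` exceptional integers. -/
theorem window_bound {a : ℝ} (ha : 1 < a) (hM : HasMult a) (A ε : ℝ) (hA : 0 ≤ A) (hε : 0 < ε) :
    ∃ d : ℕ, ∀ᶠ N : ℕ in atTop, ∀ ξ : ℝ, |ξ| ≤ Real.exp (A * N) →
      ∀ n : Fin (d + 1) → ℕ, StrictMono n → (∀ m, n m ≤ N) →
      (∀ m, n m ≤ n 0 + ⌊(N : ℝ) ^ ((1 : ℝ) / 6)⌋₊) → 1 / 2 ≤ |ξ| * a ^ (n 0) →
      ∀ b : Fin (d + 1) → ℤ, ¬ ∀ m, |ξ * a ^ (n m) - b m| ≤ Real.exp (-(ε * N)) := by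
  obtain ⟨C, hC0, hC⟩ := hM
  obtain ⟨la, hla⟩ : ∃ la : ℝ, la = Real.log a := ⟨_, rfl⟩
  have hla0 : 0 < la := by rw [hla]; exact Real.log_pos ha
  have haexp : ∀ n : ℕ, a ^ n = Real.exp (la * n) := by
    intro n
    rw [hla, mul_comm, Real.exp_nat_mul, Real.exp_log (by linarith)]
  obtain ⟨A1, hA1⟩ : ∃ A1 : ℝ, A1 = A + 2 * la := ⟨_, rfl⟩
  have hA10 : 0 < A1 := by rw [hA1]; positivity
  obtain ⟨d, hd⟩ : ∃ d : ℕ, d = ⌈4 * A1 / ε⌉₊ + 1 := ⟨_, rfl⟩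
  have hd1 : 1 ≤ d := by omega
  have hdR : (1 : ℝ) ≤ d := by exact_mod_cast hd1
  have hdA : A1 / d ≤ ε / 4 := by
    have h1 : 4 * A1 / ε ≤ d := by
      rw [hd]
      push_cast
      linarith [Nat.le_ceil (4 * A1 / ε)]
    rw [div_le_iff₀ hε] at h1
    rw [div_le_iff₀ (by linarith)]
    linarith
  obtain ⟨c0, hc0⟩ : ∃ c0 : ℝ, c0 = Real.log (3 * ((d : ℝ) + 1)) := ⟨_, rfl⟩
  have hc00 : 0 ≤ c0 := by rw [hc0]; exact Real.log_nonneg (by linarith)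
  have hc0exp : Real.exp c0 = 3 * ((d : ℝ) + 1) := by rw [hc0, Real.exp_log (by positivity)]
  obtain ⟨c, hc⟩ : ∃ c : ℝ, c = c0 + ε := ⟨_, rfl⟩
  have hc0' : 0 ≤ c := by rw [hc]; linarith
  obtain ⟨K, hK⟩ : ∃ K : ℝ, K = C * (1 + 12 * (1 + c) ^ ((1 : ℝ) / 12)) + 3 * c0 + la := ⟨_, rfl⟩
  have hK0 : 0 < K := by rw [hK]; positivity
  refine ⟨d, ?_⟩
  have hcast : Tendsto (fun N : ℕ => ((N : ℝ)) ^ ((1 : ℝ) / 12)) atTop atTop :=
    (tendsto_rpow_atTop (by norm_num)).comp tendsto_natCast_atTop_atTop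
  have ev1 : ∀ᶠ N : ℕ in atTop, K / (3 / 4 * ε) < (N : ℝ) ^ ((1 : ℝ) / 12) := hcast.eventually_gt_atTop _
  filter_upwards [ev1, eventually_ge_atTop 1] with N hN hN1
  intro ξ hξ2 n hn hnN hnG hξ1 b hbad
  have hN1' : (1 : ℝ) ≤ N := by exact_mod_cast hN1
  obtain ⟨G, hG⟩ : ∃ G : ℕ, G = ⌊(N : ℝ) ^ ((1 : ℝ) / 6)⌋₊ := ⟨_, rfl⟩
  rw [← hG] at hnG
  have hpow1 : (1 : ℝ) ≤ (N : ℝ) ^ ((1 : ℝ) / 6) := Real.one_le_rpow hN1' (by norm_num)
  have hG1 : 1 ≤ G := by rw [hG, Nat.one_le_floor_iff]; exact hpow1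
  have hGle : (G : ℝ) ≤ (N : ℝ) ^ ((1 : ℝ) / 6) := by rw [hG]; exact Nat.floor_le (by positivity)
  have hGN : (G : ℝ) ≤ N := hGle.trans (by
    calc (N : ℝ) ^ ((1 : ℝ) / 6) ≤ (N : ℝ) ^ (1 : ℝ) := Real.rpow_le_rpow_of_exponent_le hN1' (by norm_num)
      _ = N := Real.rpow_one _)
  have hρ1 : Real.exp (-(ε * N)) ≤ 1 := by
    rw [← Real.exp_zero]
    apply Real.exp_le_exp.mpr
    have : 0 ≤ ε * N := by positivity
    linarith
  obtain ⟨X, hXdef, hX1, hmain⟩ := window_ineq ha hC hd1 hn hG1 hnG hξ1 hρ1 b hbad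
  -- the size of X
  have hYle : 3 * (|ξ| * a ^ (n 0)) * a ^ G ≤ 3 * Real.exp (A1 * N) := by
    have h1 : |ξ| * a ^ (n 0) * a ^ G ≤ Real.exp (A * N) * Real.exp (la * N) * Real.exp (la * N) := by
      have h2 : a ^ (n 0) ≤ Real.exp (la * N) := by
        rw [haexp]
        apply Real.exp_le_exp.mpr
        exact mul_le_mul_of_nonneg_left (by exact_mod_cast hnN 0) hla0.le
      have h3 : a ^ G ≤ Real.exp (la * N) := by
        rw [haexp]
        apply Real.exp_le_exp.mpr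
        exact mul_le_mul_of_nonneg_left hGN hla0.le
      have ha0 : 0 < a := by linarith
      exact mul_le_mul (mul_le_mul hξ2 h2 (by positivity) (Real.exp_pos _).le) h3 (by positivity) (by positivity)
    have h4 : Real.exp (A * N) * Real.exp (la * N) * Real.exp (la * N) = Real.exp (A1 * N) := by
      rw [← Real.exp_add, ← Real.exp_add, hA1]
      congr 1
      ring
    rw [h4] at h1
    linarith
  have hXle : X ≤ Real.exp (c0 + ε / 4 * N) := by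
    have h1 : ((d : ℝ) + 1) * (3 * (|ξ| * a ^ (n 0)) * a ^ G) ≤ Real.exp (c0 + A1 * N) := by
      rw [Real.exp_add, hc0exp]
      have := mul_le_mul_of_nonneg_left hYle (show 0 ≤ (d : ℝ) + 1 by positivity)
      linarith
    have ha0 : 0 < a := by linarith
    rw [hXdef]
    calc (((d : ℝ) + 1) * (3 * (|ξ| * a ^ (n 0)) * a ^ G)) ^ ((1 : ℝ) / d) ≤ (Real.exp (c0 + A1 * N)) ^ ((1 : ℝ) / d) :=
          Real.rpow_le_rpow (by positivity) h1 (by positivity)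
      _ = Real.exp ((c0 + A1 * N) * (1 / d)) := by rw [← Real.exp_mul]
      _ ≤ Real.exp (c0 + ε / 4 * N) := by
          apply Real.exp_le_exp.mpr
          have h2 : (c0 + A1 * N) * (1 / d) = c0 * (1 / d) + A1 / d * N := by ring
          rw [h2]
          have h3 : c0 * (1 / (d : ℝ)) ≤ c0 * 1 := by
            apply mul_le_mul_of_nonneg_left _ hc00
            rw [div_le_one (by linarith)]
            exact hdR
          have h4 : A1 / d * N ≤ ε / 4 * N := mul_le_mul_of_nonneg_right hdA (by positivity)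
          linarith
  have hlX : Real.log X ≤ c * N := by
    have h1 : Real.log X ≤ c0 + ε / 4 * N := by
      rw [Real.log_le_iff_le_exp (by linarith)]
      exact hXle
    have h2 : c0 ≤ c0 * N := le_mul_of_one_le_right hc00 hN1'
    rw [hc]
    have h3 : 0 ≤ ε * N := by positivity
    nlinarith
  have hlX0 : 0 ≤ Real.log X := Real.log_nonneg hX1
  -- the lower bound
  have hlow : -(C * (1 + 12 * (1 + c) ^ ((1 : ℝ) / 12)) * (N : ℝ) ^ ((11 : ℝ) / 12)) ≤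
      -(C * (G : ℝ) ^ 5 * (1 + Real.log (1 + Real.log X))) := by
    apply neg_le_neg
    have h1 : Real.log (1 + Real.log X) ≤ Real.log (1 + c * N) := Real.log_le_log (by linarith) (by linarith)
    have h2 := log_growth hc0' hN1
    have h3 : 1 + Real.log (1 + Real.log X) ≤ (1 + 12 * (1 + c) ^ ((1 : ℝ) / 12)) * (N : ℝ) ^ ((1 : ℝ) / 12) := by linarith
    have h4 : (G : ℝ) ^ 5 ≤ (N : ℝ) ^ ((5 : ℝ) / 6) := by rw [hG]; exact floor_pow_five hN1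
    have h5 : 0 ≤ 1 + Real.log (1 + Real.log X) := by
      have : 0 ≤ Real.log (1 + Real.log X) := Real.log_nonneg (by linarith)
      linarith
    calc C * (G : ℝ) ^ 5 * (1 + Real.log (1 + Real.log X)) ≤
          C * (N : ℝ) ^ ((5 : ℝ) / 6) * ((1 + 12 * (1 + c) ^ ((1 : ℝ) / 12)) * (N : ℝ) ^ ((1 : ℝ) / 12)) :=
          mul_le_mul (mul_le_mul_of_nonneg_left h4 hC0.le) h3 h5 (by positivity)
      _ = C * (1 + 12 * (1 + c) ^ ((1 : ℝ) / 12)) * ((N : ℝ) ^ ((5 : ℝ) / 6) * (N : ℝ) ^ ((1 : ℝ) / 12)) := by ring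
      _ = _ := by
          rw [← Real.rpow_add (by linarith)]
          norm_num
  -- the upper bound
  have hup : 3 * ((d : ℝ) + 1) ^ 2 * a ^ G * X * Real.exp (-(ε * N)) ≤
      Real.exp (3 * c0 + la * (N : ℝ) ^ ((11 : ℝ) / 12) - 3 / 4 * ε * N) := by
    have h1 : 3 * ((d : ℝ) + 1) ^ 2 ≤ Real.exp (2 * c0) := by
      have : Real.exp (2 * c0) = Real.exp c0 ^ 2 := by rw [← Real.exp_nat_mul]; push_cast; rfl
      rw [this, hc0exp]
      nlinarith [sq_nonneg ((d : ℝ) + 1)]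
    have h2 : a ^ G ≤ Real.exp (la * (N : ℝ) ^ ((11 : ℝ) / 12)) := by
      rw [haexp]
      apply Real.exp_le_exp.mpr
      apply mul_le_mul_of_nonneg_left _ hla0.le
      exact hGle.trans (Real.rpow_le_rpow_of_exponent_le hN1' (by norm_num))
    have ha0 : 0 < a := by linarith
    calc 3 * ((d : ℝ) + 1) ^ 2 * a ^ G * X * Real.exp (-(ε * N)) ≤
          Real.exp (2 * c0) * Real.exp (la * (N : ℝ) ^ ((11 : ℝ) / 12)) * Real.exp (c0 + ε / 4 * N) * Real.exp (-(ε * N)) := by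
          apply mul_le_mul_of_nonneg_right _ (Real.exp_pos _).le
          apply mul_le_mul _ hXle (by linarith) (by positivity)
          exact mul_le_mul h1 h2 (by positivity) (Real.exp_pos _).le
      _ = _ := by
          rw [← Real.exp_add, ← Real.exp_add, ← Real.exp_add]
          congr 1
          ring
  have hfin := Real.exp_le_exp.mp (((Real.exp_le_exp.mpr hlow).trans hmain).trans hup)
  have h11 : 1 ≤ (N : ℝ) ^ ((11 : ℝ) / 12) := Real.one_le_rpow hN1' (by norm_num)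
  have h12 : K * (N : ℝ) ^ ((11 : ℝ) / 12) < 3 / 4 * ε * N := by
    rw [div_lt_iff₀ (by positivity)] at hN
    have h1 : (N : ℝ) = (N : ℝ) ^ ((1 : ℝ) / 12) * (N : ℝ) ^ ((11 : ℝ) / 12) := by
      rw [← Real.rpow_add (by linarith)]
      norm_num
    calc K * (N : ℝ) ^ ((11 : ℝ) / 12) < ((N : ℝ) ^ ((1 : ℝ) / 12) * (3 / 4 * ε)) * (N : ℝ) ^ ((11 : ℝ) / 12) :=
          mul_lt_mul_of_pos_right hN (by linarith)
      _ = 3 / 4 * ε * ((N : ℝ) ^ ((1 : ℝ) / 12) * (N : ℝ) ^ ((11 : ℝ) / 12)) := by ring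
      _ = _ := by rw [← h1]
  have h13 : 3 * c0 ≤ 3 * c0 * (N : ℝ) ^ ((11 : ℝ) / 12) := le_mul_of_one_le_right (by linarith) h11
  have h14 : K * (N : ℝ) ^ ((11 : ℝ) / 12) = C * (1 + 12 * (1 + c) ^ ((1 : ℝ) / 12)) * (N : ℝ) ^ ((11 : ℝ) / 12) +
      3 * c0 * (N : ℝ) ^ ((11 : ℝ) / 12) + la * (N : ℝ) ^ ((11 : ℝ) / 12) := by rw [hK]; ring
  linarith

end Pool.Agent.Helper66.TC
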