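import Mathlib
import Pool.Agent.Helper46.TC.Def

/-!
# Windows: from the multiplicative measure
-/

set_option autoImplicit false

namespace Pool.Agent.Helper66.TC

open Pool.Agent.Helper46.TC Polynomial Filter
open scoped Matrix.Norms.Elementwise

/-- Siegel's lemma for one equation -/
lemma siegel_one {d : ℕ} (hd : 1 ≤ d) (b : Fin (d + 1) → ℤ) {B : ℝ} (hB1 : 1 ≤ B) (hB : ∀ m, |(b m : ℝ)| ≤ B) :
    ∃ x : Fin (d + 1) → ℤ, x ≠ 0 ∧ ∑ m, x m * b m = 0 ∧ ∀ m, |(x m : ℝ)| ≤ (((d : ℝ) + 1) * B) ^ ((1 : ℝ) / d) := by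
  have h := Int.Matrix.exists_ne_zero_int_vec_norm_le (Matrix.of fun (_ : Fin 1) (m : Fin (d + 1)) => b m)
    (by simp; omega) (by simp)
  obtain ⟨t, ht, h1, h2⟩ := h
  refine ⟨t, ht, ?_, fun m => ?_⟩
  · have h3 := congrFun h1 0
    simp only [Matrix.mulVec, dotProduct, Matrix.of_apply, Pi.zero_apply] at h3
    rw [← h3]
    exact Finset.sum_congr rfl fun m _ => mul_comm _ _
  · have h3 : |(t m : ℝ)| ≤ ‖t‖ := by
      have := norm_le_pi_norm t m
      rwa [Int.norm_eq_abs] at this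
    refine (h3.trans h2).trans ?_
    have h4 : ((Fintype.card (Fin 1) : ℝ) / ((Fintype.card (Fin (d + 1)) : ℝ) - Fintype.card (Fin 1))) = 1 / d := by
      simp only [Fintype.card_fin]
      push_cast
      congr 1
      ring
    have h5 : ‖(Matrix.of fun (_ : Fin 1) (m : Fin (d + 1)) => b m)‖ ≤ B := by
      rw [Matrix.norm_le_iff (by linarith)]
      intro i j
      rw [Matrix.of_apply, Int.norm_eq_abs]
      exact hB j
    rw [h4]
    refine Real.rpow_le_rpow (by positivity) ?_ (by positivity)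
    simp only [Fintype.card_fin]
    push_cast
    exact mul_le_mul_of_nonneg_left (max_le hB1 h5) (by positivity)

/-- the sparse polynomial -/
noncomputable def sp {d : ℕ} (j : Fin (d + 1) → ℕ) (x : Fin (d + 1) → ℤ) : ℤ[X] := ∑ m, monomial (j m) (x m)

lemma sp_coeff {d : ℕ} {j : Fin (d + 1) → ℕ} (hj : Function.Injective j) (x : Fin (d + 1) → ℤ) (m : Fin (d + 1)) :
    (sp j x).coeff (j m) = x m := by
  unfold sp
  rw [finsetSum_coeff]
  simp only [coeff_monomial]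
  rw [Finset.sum_eq_single m]
  · simp
  · intro i _ hi
    rw [if_neg]
    intro h
    exact hi (hj h)
  · intro h
    exact absurd (Finset.mem_univ m) h

lemma sp_coeff_zero {d : ℕ} {j : Fin (d + 1) → ℕ} (x : Fin (d + 1) → ℤ) (i : ℕ) (hi : ∀ m, j m ≠ i) :
    (sp j x).coeff i = 0 := by
  unfold sp
  rw [finsetSum_coeff]
  refine Finset.sum_eq_zero fun m _ => ?_
  rw [coeff_monomial, if_neg (hi m)]

lemma sp_natDegree {d : ℕ} {j : Fin (d + 1) → ℕ} (x : Fin (d + 1) → ℤ) {G : ℕ} (hG : ∀ m, j m ≤ G) :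
    (sp j x).natDegree ≤ G := by
  unfold sp
  refine natDegree_sum_le_of_forall_le _ _ fun m _ => ?_
  exact (natDegree_monomial_le _).trans (hG m)

lemma sp_aeval {d : ℕ} (j : Fin (d + 1) → ℕ) (x : Fin (d + 1) → ℤ) (a : ℝ) :
    aeval a (sp j x) = ∑ m, (x m : ℝ) * a ^ (j m) := by
  unfold sp
  rw [map_sum]
  refine Finset.sum_congr rfl fun m _ => ?_
  rw [aeval_monomial]
  simp

lemma sp_prod {d : ℕ} {j : Fin (d + 1) → ℕ} (hj : Function.Injective j) (hj0 : j 0 = 0) (x : Fin (d + 1) → ℤ) {X : ℝ}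
    (hX : 1 ≤ X) (hx : ∀ m, |(x m : ℝ)| ≤ X) (G : ℕ) :
    ∏ i : Fin G, max 1 |(((sp j x).coeff (i + 1) : ℤ) : ℝ)| ≤ X ^ d := by
  classical
  set s : Finset (Fin G) := Finset.univ.filter (fun i => ∃ m, j m = (i : ℕ) + 1) with hs
  have h1 : ∏ i : Fin G, max 1 |(((sp j x).coeff (i + 1) : ℤ) : ℝ)| = ∏ i ∈ s, max 1 |(((sp j x).coeff (i + 1) : ℤ) : ℝ)| := by
    symm
    apply Finset.prod_subset (Finset.subset_univ s)
    intro i _ hi
    rw [sp_coeff_zero]
    · simp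
    · intro m hm
      apply hi
      rw [hs, Finset.mem_filter]
      exact ⟨Finset.mem_univ _, m, hm⟩
  rw [h1]
  have h2 : ∀ i ∈ s, max 1 |(((sp j x).coeff (i + 1) : ℤ) : ℝ)| ≤ X := by
    intro i hi
    rw [hs, Finset.mem_filter] at hi
    obtain ⟨_, m, hm⟩ := hi
    rw [← hm, sp_coeff hj]
    exact max_le hX (hx m)
  have h3 : s.card ≤ d := by
    have h4 : s.card ≤ (Finset.univ.erase (0 : Fin (d + 1))).card := by
      apply Finset.card_le_card_of_injOn (fun i : Fin G => if h : ∃ m, j m = (i : ℕ) + 1 then h.choose else 0)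
      · intro i hi
        have hi' := (Finset.mem_filter.1 hi).2
        simp only [dif_pos hi', Finset.coe_erase, Finset.coe_univ, Set.mem_diff, Set.mem_univ, true_and, Set.mem_singleton_iff]
        intro h0
        have := hi'.choose_spec
        rw [h0, hj0] at this
        omega
      · intro i hi i' hi' hii
        have h5 := (Finset.mem_filter.1 hi).2
        have h6 := (Finset.mem_filter.1 hi').2
        simp only [dif_pos h5, dif_pos h6] at hii
        have e1 := h5.choose_spec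
        have e2 := h6.choose_spec
        rw [hii, e2] at e1
        ext
        omega
    refine h4.trans ?_
    rw [Finset.card_erase_of_mem (Finset.mem_univ _), Finset.card_univ, Fintype.card_fin]
    omega
  calc ∏ i ∈ s, max 1 |(((sp j x).coeff (i + 1) : ℤ) : ℝ)| ≤ ∏ _i ∈ s, X := by
        apply Finset.prod_le_prod
        · intro i _
          positivity
        · exact h2
    _ = X ^ s.card := by rw [Finset.prod_const]
    _ ≤ X ^ d := pow_le_pow_right₀ hX h3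

/-- the inequality which contradicts the existence of `d + 1` exceptional integers in a window -/
lemma window_ineq {a : ℝ} (ha : 1 < a) {C : ℝ}
    (hC : ∀ (k : ℕ) (p : ℤ[X]) (H : ℝ), 1 ≤ k → p ≠ 0 → p.natDegree ≤ k → 1 ≤ H →
      (∀ i, |(p.coeff i : ℝ)| ≤ H) →
        Real.exp (-(C * (k : ℝ) ^ 5 * (1 + Real.log (1 + Real.log H)))) ≤
          |aeval a p| * ∏ i : Fin k, max 1 |(p.coeff (i + 1) : ℝ)|)
    {d : ℕ} (hd : 1 ≤ d) {n : Fin (d + 1) → ℕ} (hn : StrictMono n) {G : ℕ} (hG1 : 1 ≤ G) (hG : ∀ m, n m ≤ n 0 + G)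
    {ξ ρ : ℝ} (hξ : 1 / 2 ≤ |ξ| * a ^ (n 0)) (hρ1 : ρ ≤ 1) (b : Fin (d + 1) → ℤ)
    (hb : ∀ m, |ξ * a ^ (n m) - b m| ≤ ρ) :
    ∃ X : ℝ, X = (((d : ℝ) + 1) * (3 * (|ξ| * a ^ (n 0)) * a ^ G)) ^ ((1 : ℝ) / d) ∧ 1 ≤ X ∧
      Real.exp (-(C * (G : ℝ) ^ 5 * (1 + Real.log (1 + Real.log X)))) ≤ 3 * ((d : ℝ) + 1) ^ 2 * a ^ G * X * ρ := by
  have hn0 : ∀ m, n 0 ≤ n m := fun m => hn.monotone (Fin.zero_le m)
  obtain ⟨Y, hY⟩ : ∃ Y : ℝ, Y = |ξ| * a ^ (n 0) := ⟨_, rfl⟩
  rw [← hY] at hξ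
  have hY0 : 0 < Y := by linarith
  have haG : 1 ≤ a ^ G := one_le_pow₀ ha.le
  obtain ⟨B, hB⟩ : ∃ B : ℝ, B = 3 * Y * a ^ G := ⟨_, rfl⟩
  have hB1 : 1 ≤ B := by
    rw [hB]
    nlinarith
  have hbB : ∀ m, |(b m : ℝ)| ≤ B := by
    intro m
    have h1 : |(b m : ℝ)| ≤ |ξ * a ^ (n m)| + 1 := by
      have e1 : (b m : ℝ) = ξ * a ^ (n m) - (ξ * a ^ (n m) - b m) := by ring
      have e2 : |ξ * a ^ (n m) - (ξ * a ^ (n m) - b m)| ≤ |ξ * a ^ (n m)| + |ξ * a ^ (n m) - b m| := abs_sub _ _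
      rw [← e1] at e2
      have := (hb m).trans hρ1
      linarith
    have h2 : |ξ * a ^ (n m)| ≤ Y * a ^ G := by
      rw [abs_mul, abs_of_pos (pow_pos (by linarith : 0 < a) _), hY, mul_assoc, ← pow_add]
      exact mul_le_mul_of_nonneg_left (pow_le_pow_right₀ ha.le (hG m)) (abs_nonneg _)
    rw [hB]
    have h3 : 1 ≤ 2 * (Y * a ^ G) := by nlinarith
    linarith
  obtain ⟨x, hx0, hx1, hx2⟩ := siegel_one hd b hB1 hbB
  obtain ⟨X, hX⟩ : ∃ X : ℝ, X = (((d : ℝ) + 1) * B) ^ ((1 : ℝ) / d) := ⟨_, rfl⟩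
  rw [← hX] at hx2
  have hX1 : 1 ≤ X := by
    rw [hX]
    apply Real.one_le_rpow _ (by positivity)
    have : (0 : ℝ) ≤ d := by positivity
    nlinarith
  have hXd : X ^ d = ((d : ℝ) + 1) * B := by
    rw [hX, ← Real.rpow_natCast, ← Real.rpow_mul (by positivity)]
    have : (1 : ℝ) / d * d = 1 := by
      have : (d : ℝ) ≠ 0 := by positivity
      field_simp
    rw [this, Real.rpow_one]
  refine ⟨X, by rw [hX, hB, hY], hX1, ?_⟩
  set j : Fin (d + 1) → ℕ := fun m => n m - n 0 with hj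
  have hjinj : Function.Injective j := by
    intro m m' h
    apply hn.injective
    simp only [hj] at h
    have := hn0 m
    have := hn0 m'
    omega
  have hj0 : j 0 = 0 := by simp [hj]
  have hjG : ∀ m, j m ≤ G := by
    intro m
    have := hG m
    simp only [hj]
    omega
  have hP0 : sp j x ≠ 0 := by
    intro h0
    apply hx0
    funext m
    rw [← sp_coeff hjinj x m, h0]
    simp
  have hco : ∀ i, |((sp j x).coeff i : ℝ)| ≤ X := by
    intro i
    by_cases hi : ∃ m, j m = i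
    · obtain ⟨m, rfl⟩ := hi
      rw [sp_coeff hjinj]
      exact hx2 m
    · push Not at hi
      rw [sp_coeff_zero x i hi]
      simp
      linarith
  have h1 := hC G (sp j x) X hG1 hP0 (sp_natDegree x hjG) hX1 hco
  have h2 := sp_prod hjinj hj0 x hX1 hx2 G
  have h3 : |aeval a (sp j x)| * Y ≤ ((d : ℝ) + 1) * X * ρ := by
    have e1 : |aeval a (sp j x)| * Y = |∑ m, (x m : ℝ) * (ξ * a ^ (n m) - b m)| := by
      have e2 : ∑ m, (x m : ℝ) * (ξ * a ^ (n m) - b m) = ξ * a ^ (n 0) * ∑ m, (x m : ℝ) * a ^ (j m) := by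
        have e3 : ∑ m, (x m : ℝ) * (b m : ℝ) = 0 := by exact_mod_cast hx1
        simp only [mul_sub]
        rw [Finset.sum_sub_distrib, e3, sub_zero, Finset.mul_sum]
        refine Finset.sum_congr rfl fun m _ => ?_
        have e4 : a ^ (n m) = a ^ (n 0) * a ^ (j m) := by
          rw [← pow_add]
          congr 1
          have := hn0 m
          simp only [hj]
          omega
        rw [e4]
        ring
      rw [e2, sp_aeval, abs_mul, abs_mul, abs_of_pos (pow_pos (by linarith : 0 < a) _), ← hY, mul_comm]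
    rw [e1]
    refine (Finset.abs_sum_le_sum_abs _ _).trans ?_
    have e5 : ∀ m ∈ (Finset.univ : Finset (Fin (d + 1))), |(x m : ℝ) * (ξ * a ^ (n m) - b m)| ≤ X * ρ := by
      intro m _
      rw [abs_mul]
      exact mul_le_mul (hx2 m) (hb m) (abs_nonneg _) (by linarith)
    refine (Finset.sum_le_sum e5).trans (le_of_eq ?_)
    rw [Finset.sum_const, Finset.card_univ, Fintype.card_fin, nsmul_eq_mul]
    push_cast
    ring
  refine h1.trans ?_
  calc |aeval a (sp j x)| * ∏ i : Fin G, max 1 |(((sp j x).coeff (i + 1) : ℤ) : ℝ)|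
      ≤ |aeval a (sp j x)| * X ^ d := mul_le_mul_of_nonneg_left h2 (abs_nonneg _)
    _ = (|aeval a (sp j x)| * Y) * (3 * ((d : ℝ) + 1) * a ^ G) := by rw [hXd, hB]; ring
    _ ≤ (((d : ℝ) + 1) * X * ρ) * (3 * ((d : ℝ) + 1) * a ^ G) := mul_le_mul_of_nonneg_right h3 (by positivity)
    _ = _ := by ring

end Pool.Agent.Helper66.TC
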